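import Pool.Agent.Helper96.EL.Defs

/-!
# Coordinates and the group law
-/

namespace Pool.Agent.Helper96.EL

open WeierstrassCurve.Affine WeierstrassCurve

universe u

section add

variable {F : Type u} [Field F] {W : WeierstrassCurve.Affine F}

@[simp] lemma xv_zero : xv (0 : W.Point) = 0 := rfl
@[simp] lemma Yv_zero : Yv (0 : W.Point) = 0 := rfl
@[simp] lemma xv_some {x y : F} (h : W.Nonsingular x y) : xv (Point.some x y h) = x := rfl
@[simp] lemma Yv_some {x y : F} (h : W.Nonsingular x y) :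
    Yv (Point.some x y h) = 2 * y + W.a₁ * x + W.a₃ := rfl

/-- every point other than the origin is affine. -/
lemma exists_some {P : W.Point} (hP : P ≠ 0) :
    ∃ (x y : F) (h : W.Nonsingular x y), P = Point.some x y h := by
  rcases P with (_ | ⟨x, y, h⟩)
  · exact absurd rfl hP
  · exact ⟨x, y, h, rfl⟩

/-- the Weierstrass equation in terms of `Y`. -/
lemma Yv_sq {P : W.Point} (hP : P ≠ 0) : Yv P ^ 2 = psi W (xv P) := by
  obtain ⟨x, y, h, rfl⟩ := exists_some hP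
  have h1 := (WeierstrassCurve.Affine.equation_iff x y).mp h.1
  simp only [xv_some, Yv_some, psi, WeierstrassCurve.b₂, WeierstrassCurve.b₄, WeierstrassCurve.b₆]
  linear_combination 4 * h1

lemma xv_neg (P : W.Point) : xv (-P) = xv P := by
  rcases P with (_ | ⟨x, y, h⟩)
  · rfl
  · rfl

lemma Yv_neg (P : W.Point) : Yv (-P) = -Yv P := by
  rcases P with (_ | ⟨x, y, h⟩)
  · change (0 : F) = -0
    simp
  · rw [Point.neg_some, Yv_some, Yv_some, WeierstrassCurve.Affine.negY]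
    ring

lemma eq_or_eq_neg_of_xv {P Q : W.Point} (hP : P ≠ 0) (hQ : Q ≠ 0) (h : xv P = xv Q) :
    P = Q ∨ P = -Q := by
  obtain ⟨x, y, h1, rfl⟩ := exists_some hP
  obtain ⟨x', y', h2, rfl⟩ := exists_some hQ
  exact Point.X_eq_iff.mp h

variable [DecidableEq F]

/-- the addition formula: `2 x(P + Q) (x(P) - x(Q))² = A - Y(P) Y(Q)`. -/
lemma add_formula {P Q : W.Point} (hP : P ≠ 0) (hQ : Q ≠ 0) (hx : xv P ≠ xv Q) :
    P + Q ≠ 0 ∧
      2 * xv (P + Q) * (xv P - xv Q) ^ 2 = AA W (xv P) (xv Q) - Yv P * Yv Q := by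
  obtain ⟨x, y, h, rfl⟩ := exists_some hP
  obtain ⟨x', y', h', rfl⟩ := exists_some hQ
  simp only [xv_some] at hx
  rw [Point.add_of_X_ne hx]
  refine ⟨Point.some_ne_zero _, ?_⟩
  have h1 := (WeierstrassCurve.Affine.equation_iff x y).mp h.1
  have h2 := (WeierstrassCurve.Affine.equation_iff x' y').mp h'.1
  simp only [xv_some, Yv_some, AA, WeierstrassCurve.b₂, WeierstrassCurve.b₄, WeierstrassCurve.b₆,
    WeierstrassCurve.Affine.addX]
  have hs := WeierstrassCurve.Affine.slope_of_X_ne (W := W) (y₁ := y) (y₂ := y') hx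
  rw [hs]
  have hd : x - x' ≠ 0 := sub_ne_zero.mpr hx
  field_simp
  linear_combination 2 * h1 + 2 * h2

/-- the same for the difference: `2 x(P - Q) (x(P) - x(Q))² = A + Y(P) Y(Q)`. -/
lemma sub_formula {P Q : W.Point} (hP : P ≠ 0) (hQ : Q ≠ 0) (hx : xv P ≠ xv Q) :
    P - Q ≠ 0 ∧
      2 * xv (P - Q) * (xv P - xv Q) ^ 2 = AA W (xv P) (xv Q) + Yv P * Yv Q := by
  have h := add_formula (Q := -Q) hP (neg_ne_zero.mpr hQ) (by rw [xv_neg]; exact hx)
  rw [← sub_eq_add_neg, xv_neg, Yv_neg] at h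
  refine ⟨h.1, ?_⟩
  rw [h.2]
  ring

lemma two_torsion {P : W.Point} (hP : P ≠ 0) (hY : Yv P = 0) : P + P = 0 := by
  obtain ⟨x, y, h, rfl⟩ := exists_some hP
  refine Point.add_self_of_Y_eq ?_
  rw [Yv_some] at hY
  rw [WeierstrassCurve.Affine.negY]
  linear_combination hY

/-- the duplication formula: `x(2P) ψ(x(P)) = φ(x(P))`. -/
lemma dbl_formula {P : W.Point} (hP : P ≠ 0) (hY : Yv P ≠ 0) :
    P + P ≠ 0 ∧ xv (P + P) * psi W (xv P) = phi W (xv P) := by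
  obtain ⟨x, y, h, rfl⟩ := exists_some hP
  rw [Yv_some] at hY
  have hy : y ≠ W.negY x y := by
    rw [WeierstrassCurve.Affine.negY]
    intro h0
    apply hY
    linear_combination h0
  rw [Point.add_self_of_Y_ne hy]
  refine ⟨Point.some_ne_zero _, ?_⟩
  have h1 := (WeierstrassCurve.Affine.equation_iff x y).mp h.1
  have hs := WeierstrassCurve.Affine.slope_of_Y_ne (W := W) rfl hy
  have hd : y - W.negY x y = 2 * y + W.a₁ * x + W.a₃ := by
    rw [WeierstrassCurve.Affine.negY]; ring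
  rw [hd] at hs
  set l : F := W.slope x x y y with hl
  have hl2 : l * (2 * y + W.a₁ * x + W.a₃) = 3 * x ^ 2 + 2 * W.a₂ * x + W.a₄ - W.a₁ * y := by
    rw [hs, div_mul_cancel₀ _ hY]
  simp only [xv_some, psi, phi, WeierstrassCurve.Affine.addX]
  simp only [WeierstrassCurve.b₂, WeierstrassCurve.b₄, WeierstrassCurve.b₆, WeierstrassCurve.b₈]
  have hpsi : 4 * x ^ 3 + (W.a₁ ^ 2 + 4 * W.a₂) * x ^ 2 + 2 * (2 * W.a₄ + W.a₁ * W.a₃) * x +
      (W.a₃ ^ 2 + 4 * W.a₆) = (2 * y + W.a₁ * x + W.a₃) ^ 2 := by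
    linear_combination -4 * h1
  rw [hpsi]
  have e1 : (l ^ 2 + W.a₁ * l - W.a₂ - x - x) * (2 * y + W.a₁ * x + W.a₃) ^ 2 =
      (3 * x ^ 2 + 2 * W.a₂ * x + W.a₄ - W.a₁ * y) ^ 2 +
      W.a₁ * (3 * x ^ 2 + 2 * W.a₂ * x + W.a₄ - W.a₁ * y) * (2 * y + W.a₁ * x + W.a₃) -
      (W.a₂ + 2 * x) * (2 * y + W.a₁ * x + W.a₃) ^ 2 := by
    rw [← hl2]; ring
  rw [e1]
  linear_combination (-(W.a₁ ^ 2 + 4 * W.a₂ + 8 * x)) * h1

end add

end Pool.Agent.Helper96.EL
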