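import Pool.Agent.Helper96.EL.Fin
import Pool.Agent.Helper13.EL.BND
import Pool.Agent.Helper35.EL.MAIN0
import Pool.Agent.Helper35.EL.PIGF
import Pool.Agent.Helper35.EL.SHIFT
import Pool.Agent.Helper36.EL.PIGI
import Pool.Agent.Helper53.EL.GOODX
import Pool.Agent.Helper66.EL.GRW
import Pool.Agent.Helper69.EL.CC
import Pool.Agent.Helper77.EL.DIST
import Pool.Agent.Helper85.EL.HGT

/-!
# The first part of the main theorem
-/

namespace Pool.Agent.Helper96.EL

universe u

/-- the theorem on rational points. -/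
theorem main0_all : MAIN0.{u} :=
  Pool.Agent.Helper35.EL.main0
    (Pool.Agent.Helper69.EL.cc Pool.Agent.Helper35.EL.pigf Pool.Agent.Helper36.EL.pigi
      (Pool.Agent.Helper77.EL.dist Pool.Agent.Helper13.EL.bnd)
      (Pool.Agent.Helper53.EL.goodx Pool.Agent.Helper13.EL.bnd)
      (Pool.Agent.Helper35.EL.shift Pool.Agent.Helper13.EL.bnd))
    Pool.Agent.Helper85.EL.hgt Pool.Agent.Helper66.EL.grw

/-- the first part of the main theorem. -/
theorem main : Main.{u} := main_of main0_all tr

end Pool.Agent.Helper96.EL
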