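import Pool.Agent.Helper96.EL.Add

/-!
# The discriminant identity and bounds for `ψ`, `φ`
-/

namespace Pool.Agent.Helper96.EL

universe u

section bnd

variable {F : Type u} [Field F] (W : WeierstrassCurve.Affine F)

/-- the resultant identity for `φ` and `ψ`. -/
lemma disc_identity (x : F) :
    (-48 * x ^ 2 - 8 * W.b₂ * x + W.b₂ ^ 2 - 32 * W.b₄) * phi W x +
      (12 * x ^ 3 - W.b₂ * x ^ 2 - 10 * W.b₄ * x + W.b₂ * W.b₄ - 27 * W.b₆) * psi W x = W.Δ := by
  have h := W.b_relation
  simp only [phi, psi, WeierstrassCurve.Δ]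
  linear_combination (-12 * x ^ 2 - 2 * W.b₂ * x - 8 * W.b₄) * (-h)

/-- `4 (x₁ - x₂)² G = A² - ψ(x₁) ψ(x₂)`. -/
lemma GG_identity (x₁ x₂ : F) :
    4 * (x₁ - x₂) ^ 2 * GG W x₁ x₂ = AA W x₁ x₂ ^ 2 - psi W x₁ * psi W x₂ := by
  have h := W.b_relation
  simp only [GG, AA, psi]
  linear_combination (-(x₁ - x₂) ^ 2) * h

lemma GG_self (x : F) : GG W x x = phi W x := by
  simp only [GG, phi]; ring

/-- `2 A = ψ(x₁) + ψ(x₂) - (x₁ - x₂)² (4 (x₁ + x₂) + b₂)`. -/
lemma AA_identity (x₁ x₂ : F) :
    2 * AA W x₁ x₂ = psi W x₁ + psi W x₂ - (x₁ - x₂) ^ 2 * (4 * (x₁ + x₂) + W.b₂) := by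
  simp only [AA, psi]; ring

end bnd

section baseChange

/-- base change preserves elliptic curves. -/
instance isElliptic_baseChange {k K : Type u} [Field k] [Field K] [Algebra k K]
    (W : WeierstrassCurve.Affine k) [W.IsElliptic] : (W.baseChange K).IsElliptic :=
  inferInstanceAs (W.map (algebraMap k K)).IsElliptic

variable {k K L : Type u} [Field k] [Field K] [Field L] [Algebra k K] [Algebra K L] [Algebra k L]
  [IsScalarTower k K L] (W : WeierstrassCurve.Affine k)

lemma b₂_tower : (W.baseChange L).b₂ = algebraMap K L (W.baseChange K).b₂ := by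
  change (WeierstrassCurve.map W _).b₂ = algebraMap K L (WeierstrassCurve.map W _).b₂
  rw [WeierstrassCurve.map_b₂, WeierstrassCurve.map_b₂, IsScalarTower.algebraMap_apply k K L]

lemma b₄_tower : (W.baseChange L).b₄ = algebraMap K L (W.baseChange K).b₄ := by
  change (WeierstrassCurve.map W _).b₄ = algebraMap K L (WeierstrassCurve.map W _).b₄
  rw [WeierstrassCurve.map_b₄, WeierstrassCurve.map_b₄, IsScalarTower.algebraMap_apply k K L]

lemma b₆_tower : (W.baseChange L).b₆ = algebraMap K L (W.baseChange K).b₆ := by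
  change (WeierstrassCurve.map W _).b₆ = algebraMap K L (WeierstrassCurve.map W _).b₆
  rw [WeierstrassCurve.map_b₆, WeierstrassCurve.map_b₆, IsScalarTower.algebraMap_apply k K L]

lemma b₈_tower : (W.baseChange L).b₈ = algebraMap K L (W.baseChange K).b₈ := by
  change (WeierstrassCurve.map W _).b₈ = algebraMap K L (WeierstrassCurve.map W _).b₈
  rw [WeierstrassCurve.map_b₈, WeierstrassCurve.map_b₈, IsScalarTower.algebraMap_apply k K L]

/-- `ψ` over an extension field. -/
lemma psi_tower (x : K) :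
    psi (W.baseChange L) (algebraMap K L x) = algebraMap K L (psi (W.baseChange K) x) := by
  unfold psi
  rw [b₂_tower (K := K), b₄_tower (K := K), b₆_tower (K := K)]
  simp only [map_add, map_mul, map_pow, map_ofNat]

/-- `φ` over an extension field. -/
lemma phi_tower (x : K) :
    phi (W.baseChange L) (algebraMap K L x) = algebraMap K L (phi (W.baseChange K) x) := by
  unfold phi
  rw [b₄_tower (K := K), b₆_tower (K := K), b₈_tower (K := K)]
  simp only [map_sub, map_mul, map_pow, map_ofNat]

end baseChange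

end Pool.Agent.Helper96.EL
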