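import Pool.Agent.Results.MP_e44225_nt.SUnitDisproof

/-!
# Vojta's inequality on elliptic curves: the constant must be at least half the rank (definitions)

`W` is an elliptic curve over a number field `k`, given by a Weierstrass equation
`y² + a₁xy + a₃y = x³ + a₂x² + a₄x + a₆`; its origin `O` is the point at infinity.
The absolute values `nabs`, the places `Place`, the relation `Above` and `logPlus` are those of
the first theorem on this problem, `Pool.Agent.Results.MP_e44225_nt.SUnitDisproof`.
-/

open NumberField Height
open Pool.Agent.Results.MP_e44225_nt.SUnitDisproof (logPlus Place nabs Above)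

namespace Pool.Agent.Helper96.EL

universe u

/-! ## Algebraic points, heights, discriminants, proximity functions, and `Fails` -/

section points

variable {k : Type u} [Field k] [NumberField k]

/-- A point, other than the origin, of the elliptic curve `W` over `k`, with values in the
algebraic closure of `k`. -/
structure Pt (W : WeierstrassCurve.Affine k) : Type u where
  /-- the first affine coordinate -/
  x : AlgebraicClosure k
  /-- the second affine coordinate -/
  y : AlgebraicClosure k
  /-- the Weierstrass equation -/
  eqn : y ^ 2 + algebraMap k (AlgebraicClosure k) W.a₁ * x * y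
      + algebraMap k (AlgebraicClosure k) W.a₃ * y
    = x ^ 3 + algebraMap k (AlgebraicClosure k) W.a₂ * x ^ 2
      + algebraMap k (AlgebraicClosure k) W.a₄ * x + algebraMap k (AlgebraicClosure k) W.a₆

variable {W : WeierstrassCurve.Affine k}

/-- The residue field `k_P = k(x, y)` of the point `P = (x, y)`. -/
noncomputable def resField (P : Pt W) : IntermediateField k (AlgebraicClosure k) :=
  IntermediateField.adjoin k {P.x, P.y}

/-- The residue field is a number field. -/
instance numberField_resField (P : Pt W) : NumberField (resField P) :=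
  haveI : FiniteDimensional k (resField P) :=
    IntermediateField.finiteDimensional_adjoin fun x _ => Algebra.IsIntegral.isIntegral x
  NumberField.of_module_finite k (resField P)

/-- The degree `[k_P : k]`. -/
noncomputable def deg (P : Pt W) : ℕ := Module.finrank k (resField P)

/-- The first coordinate of `P`, as an element of the residue field. -/
noncomputable def xRes (P : Pt W) : resField P :=
  ⟨P.x, IntermediateField.subset_adjoin k _ (Set.mem_insert _ _)⟩

/-- The Weil height of the line sheaf `O(2[O])` at `P`, normalised relative to `k`: the height of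
`x(P)` over the residue field `k_P`, divided by `[k_P : k]`. -/
noncomputable def ht (P : Pt W) : ℝ := logHeight₁ (xRes P) / deg P

/-- The logarithmic discriminant `d(P) = log |Disc k_P| / [k_P : k]`. -/
noncomputable def logDiscr (P : Pt W) : ℝ :=
  Real.log |(NumberField.discr (resField P) : ℝ)| / deg P

/-- The standard proximity function `m_S([O], P)` of the origin relative to the finite set `S` of
places of `k`: the sum of `log⁺ ‖x(P)‖_w / 2` (the function `x` has a double pole at `O`) over the
places `w` of `k_P` above `S`, divided by `[k_P : k]`. -/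
noncomputable def prox (S : Finset (Place k)) (P : Pt W) : ℝ :=
  (∑ᶠ w ∈ {w : Place (resField P) | ∃ v ∈ S, Above v w}, logPlus (nabs w (xRes P)) / 2) / deg P

end points

/-- `Fails k W T r S C`: for `X` the elliptic curve `W` over `k` and `D = [O] + ∑_{t ∈ T} [t]`,
whatever the choice of the Weil heights `hK` of the (trivial) canonical sheaf and `hA` of an ample
line sheaf, and of the proximity function `mS` of `D` relative to `S`, the inequality
`hK(P) + mS(P) < C log⁺ hA(P) + d(P)` fails at infinitely many algebraic points `P` of degree at
most `r` over `k`, outside the support of `D`.  Of `hK` we only use that it is bounded, of `hA`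
that it is at most `B (1 + ht)` for some `B` (every height of every line sheaf is), of `mS` that it
is bounded below by `m_S([O], ·) - B` for some `B` (every proximity function of `D` is). -/
def Fails (k : Type u) [Field k] [NumberField k] (W : WeierstrassCurve.Affine k)
    (T : Finset (Pt W)) (r : ℕ) (S : Finset (Place k)) (C : ℝ) : Prop :=
  ∀ hK hA mS : Pt W → ℝ,
    (∃ B : ℝ, ∀ P, |hK P| ≤ B) →
    (∃ B : ℝ, ∀ P, hA P ≤ B * (1 + ht P)) →
    (∃ B : ℝ, ∀ P, P ∉ T → prox S P - B ≤ mS P) →
    {P : Pt W | P ∉ T ∧ deg P ≤ r ∧
      ¬ (hK P + mS P < C * logPlus (hA P) + logDiscr P)}.Infinite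

/-! ## Coordinates on the group of rational points -/

section coordinates

variable {F : Type*} [Field F]

/-- `ψ(x) = 4x³ + b₂x² + 2b₄x + b₆`, which is `(2y + a₁x + a₃)²` on the curve. -/
def psi (W : WeierstrassCurve.Affine F) (x : F) : F :=
  4 * x ^ 3 + W.b₂ * x ^ 2 + 2 * W.b₄ * x + W.b₆

/-- `φ(x) = x⁴ - b₄x² - 2b₆x - b₈`, the numerator of `x(2P) = φ(x)/ψ(x)`. -/
def phi (W : WeierstrassCurve.Affine F) (x : F) : F :=
  x ^ 4 - W.b₄ * x ^ 2 - 2 * W.b₆ * x - W.b₈

/-- `A(x₁, x₂)`, such that `2 x(P ± Q) (x₁ - x₂)² = A ∓ Y₁Y₂`. -/
def AA (W : WeierstrassCurve.Affine F) (x₁ x₂ : F) : F :=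
  2 * x₁ * x₂ * (x₁ + x₂) + W.b₂ * x₁ * x₂ + W.b₄ * (x₁ + x₂) + W.b₆

/-- `G(x₁, x₂)`, such that `x(P + Q) x(P - Q) (x₁ - x₂)² = G`. -/
def GG (W : WeierstrassCurve.Affine F) (x₁ x₂ : F) : F :=
  x₁ ^ 2 * x₂ ^ 2 - W.b₄ * x₁ * x₂ - W.b₆ * (x₁ + x₂) - W.b₈

variable {W : WeierstrassCurve.Affine F}

/-- The first coordinate of a point, `0` at the origin. -/
def xv : W.Point → F
  | .zero => 0
  | .some x _ _ => x

/-- `Y = 2y + a₁x + a₃` at a point, `0` at the origin. -/
def Yv : W.Point → F
  | .zero => 0
  | .some x y _ => 2 * y + W.a₁ * x + W.a₃

/-- The naive height of a point over a number field. -/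
noncomputable def hx {k : Type u} [Field k] [NumberField k] {W : WeierstrassCurve.Affine k}
    (P : W.Point) : ℝ := logHeight₁ (xv P)

end coordinates

/-! ## Absolute values -/

section places

variable {k : Type u} [Field k] [NumberField k]

/-- The absolute value of a place: the usual one at an infinite place, the normalised one at a
finite place. -/
def pav (v : Place k) : AbsoluteValue k ℝ :=
  Sum.elim (fun w : InfinitePlace k => w.1) (fun w : FinitePlace k => w.1) v

/-- The exponent: `‖·‖_v = pav v (·) ^ mu v`. -/
noncomputable def mu (v : Place k) : ℕ :=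
  Sum.elim (fun w : InfinitePlace k => w.mult) (fun _ : FinitePlace k => 1) v

end places

end Pool.Agent.Helper96.EL
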