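import Pool.Agent.Helper96.EL.Tr

/-!
# The main theorem from the packets
-/

open NumberField Height
open Pool.Agent.Results.MP_e44225_nt.SUnitDisproof (logPlus Place nabs Above logPlus_nonneg
  logPlus_mono log_le_logPlus nabs_nonneg)

namespace Pool.Agent.Helper96.EL

universe u

/-- The first part of the main theorem, from the theorem on rational points. -/
theorem main_of (hM : MAIN0.{u}) (hT : TR.{u}) : Main.{u} := by
  intro k _ _ _ W _ ρ P hρ hP T r hr S hS C hC hK hA mS hB1 hB2 hB3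
  obtain ⟨B₁, hB₁⟩ := hB1
  obtain ⟨B₂, hB₂⟩ := hB2
  obtain ⟨B₃, hB₃⟩ := hB3
  obtain ⟨v, hv⟩ := hS
  obtain ⟨c₀, hc₀⟩ := hM k W v ρ P hρ hP
  have hρ' : (0 : ℝ) < (ρ : ℝ) / 2 := by
    have : (0 : ℝ) < ρ := by exact_mod_cast hρ
    positivity
  set C' : ℝ := max C 0 with hC'
  have hC'0 : 0 ≤ C' := le_max_right _ _
  have hCC' : C ≤ C' := le_max_left _ _
  have hC'ρ : C' < (ρ : ℝ) / 2 := max_lt hC hρ'
  set θ : ℝ := C' / ((ρ : ℝ) / 2) with hθ
  have hθ0 : 0 ≤ θ := div_nonneg hC'0 hρ'.le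
  have hθ1 : θ < 1 := (div_lt_one hρ').mpr hC'ρ
  have hθρ : θ * ((ρ : ℝ) / 2) = C' := div_mul_cancel₀ _ hρ'.ne'
  set dd : ℝ := Real.log |(NumberField.discr k : ℝ)| with hdd
  set t₀ : ℝ := (B₁ + B₃ + dd + C' * Real.log (|B₂| + 1) + θ * c₀) / (1 - θ) with ht₀
  intro hfin
  set E : Set (Pt W) := {P : Pt W | P ∉ T ∧ deg P ≤ r ∧
      ¬ (hK P + mS P < C * logPlus (hA P) + logDiscr P)} with hE
  set ι := algebraMap k (AlgebraicClosure k) with hι
  have hinj : Function.Injective ι := (algebraMap k (AlgebraicClosure k)).injective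
  have hfin2 : (E ∪ (T : Set (Pt W))).Finite := hfin.union T.finite_toSet
  have hfin3 : (ι ⁻¹' ((fun P : Pt W => P.x) '' (E ∪ (T : Set (Pt W))))).Finite :=
    (hfin2.image _).preimage hinj.injOn
  obtain ⟨R₁, hR₁⟩ := (hfin3.image (fun x => nabs v x)).bddAbove
  have hR₁' : ∀ x : k, ι x ∈ (fun P : Pt W => P.x) '' (E ∪ (T : Set (Pt W))) → nabs v x ≤ R₁ :=
    fun x hx => hR₁ ⟨x, hx, rfl⟩
  obtain ⟨Q, hQ0, hQR, hQ⟩ := hc₀ (max (R₁ + 1) (Real.exp (2 * t₀)))
  obtain ⟨P', hP'x, hdeg, hht, hdisc, hprox⟩ := hT k W Q hQ0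
  have hQR1 : R₁ < nabs v (xv Q) := by
    have := (le_max_left (R₁ + 1) (Real.exp (2 * t₀))).trans hQR
    linarith
  have hQR2 : Real.exp (2 * t₀) ≤ nabs v (xv Q) := (le_max_right _ _).trans hQR
  have hnpos : 0 < nabs v (xv Q) := (Real.exp_pos _).trans_le hQR2
  have hP'U : P' ∉ E ∪ (T : Set (Pt W)) := by
    intro h
    have := hR₁' (xv Q) ⟨P', h, hP'x⟩
    linarith
  have hP'T : P' ∉ T := fun h => hP'U (Or.inr h)
  apply hP'U
  left
  refine ⟨hP'T, by rw [hdeg]; exact hr, ?_⟩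
  rw [not_lt]
  set t : ℝ := 1 / 2 * Real.log (nabs v (xv Q)) with ht
  have htt₀ : t₀ ≤ t := by
    have h1 : 2 * t₀ ≤ Real.log (nabs v (xv Q)) := (Real.le_log_iff_exp_le hnpos).mpr hQR2
    rw [ht]; linarith
  have hkey : (B₁ + B₃ + dd + C' * Real.log (|B₂| + 1) + θ * c₀) ≤ (1 - θ) * t := by
    have h1 : (B₁ + B₃ + dd + C' * Real.log (|B₂| + 1) + θ * c₀) = (1 - θ) * t₀ := by
      rw [ht₀, mul_div_cancel₀]
      exact (sub_pos.mpr hθ1).ne'
    rw [h1]
    exact mul_le_mul_of_nonneg_left htt₀ (sub_pos.mpr hθ1).le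
  -- left-hand side
  have e1 : -B₁ ≤ hK P' := (abs_le.mp (hB₁ P')).1
  have e3 := hB₃ P' hP'T
  have e4 : t ≤ prox S P' := by
    rw [hprox S]
    refine le_trans ?_ (Finset.single_le_sum
      (f := fun v => logPlus (nabs v (xv Q)) / 2)
      (fun v _ => div_nonneg (logPlus_nonneg _) two_pos.le) hv)
    have := log_le_logPlus hnpos
    rw [ht]
    linarith
  -- right-hand side
  have hx0 : 0 ≤ hx Q := zero_le_logHeight₁ _
  have e5 : hA P' ≤ (|B₂| + 1) * (1 + hx Q) := by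
    refine (hB₂ P').trans ?_
    rw [hht]
    have := le_abs_self B₂
    exact mul_le_mul_of_nonneg_right (by linarith) (by linarith)
  have hB0 : (0 : ℝ) < |B₂| + 1 := by positivity
  have e6 : logPlus (hA P') ≤ Real.log (|B₂| + 1) + Real.log (1 + hx Q) := by
    have h2 : logPlus (hA P') ≤ logPlus ((|B₂| + 1) * (1 + hx Q)) := logPlus_mono e5
    have h3 : logPlus ((|B₂| + 1) * (1 + hx Q)) = Real.log ((|B₂| + 1) * (1 + hx Q)) := by
      unfold logPlus
      rw [max_eq_right]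
      have h4 : (1 : ℝ) ≤ |B₂| + 1 := by linarith [abs_nonneg B₂]
      have h5 : (1 : ℝ) ≤ 1 + hx Q := by linarith
      calc (1 : ℝ) = 1 * 1 := by ring
        _ ≤ (|B₂| + 1) * (1 + hx Q) := mul_le_mul h4 h5 zero_le_one (by linarith)
    rw [h3, Real.log_mul hB0.ne' (by linarith)] at h2
    exact h2
  have e7 : C * logPlus (hA P') ≤ C' * (Real.log (|B₂| + 1) + Real.log (1 + hx Q)) :=
    (mul_le_mul_of_nonneg_right hCC' (logPlus_nonneg _)).trans
      (mul_le_mul_of_nonneg_left e6 hC'0)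
  have e8 : C' * Real.log (1 + hx Q) ≤ θ * (t + c₀) := by
    rw [← hθρ, mul_assoc]
    refine mul_le_mul_of_nonneg_left ?_ hθ0
    linarith
  rw [hdisc]
  have e9 : C' * (Real.log (|B₂| + 1) + Real.log (1 + hx Q)) =
      C' * Real.log (|B₂| + 1) + C' * Real.log (1 + hx Q) := by ring
  rw [e9] at e7
  have e10 : (1 - θ) * t = t - θ * t := by ring
  have e11 : θ * (t + c₀) = θ * t + θ * c₀ := by ring
  rw [e10] at hkey
  rw [e11] at e8
  linarith

/-- `n` independent points over a suitable number field. -/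
theorem rank_of (hS : STEP.{u}) (k : Type u) [Field k] [NumberField k]
    (W : WeierstrassCurve.Affine k) [W.IsElliptic] (n : ℕ) :
    ∃ (K : Type u) (_ : Field K) (_ : NumberField K) (_ : Algebra k K) (_ : DecidableEq K)
      (P : Fin n → (W.baseChange K).Point), LinearIndependent ℤ P := by
  classical
  induction n with
  | zero =>
    exact ⟨k, inferInstance, inferInstance, Algebra.id k, inferInstance, fun i => i.elim0,
      linearIndependent_empty_type⟩
  | succ n ih =>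
    obtain ⟨K, hf, hn, ha, hd, P, hP⟩ := ih
    exact hS k K W n P hP

/-- The second part of the main theorem. -/
theorem main2_of (hM : Main.{u}) (hS : STEP.{u}) : Main2.{u} := by
  intro k _ _ W _ C
  obtain ⟨n, hn⟩ := exists_nat_gt (2 * C)
  obtain ⟨K, hf, hnf, ha, hd, P, hP⟩ := rank_of hS k W (n + 1)
  refine ⟨K, hf, hnf, ha, ?_⟩
  intro T r hr S hS'
  refine hM K (W.baseChange K) (n + 1) P (Nat.succ_pos n) hP T r hr S hS' C ?_
  push_cast
  linarith

end Pool.Agent.Helper96.EL
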