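import Pool.Agent.Helper96.EL.Bnd

/-!
# Vojta's inequality on elliptic curves: the packets

Main theorem (`Main` below): let `W` be an elliptic curve over a number field `k` with `ρ ≥ 1`
independent rational points, `D = [O] + T`, `S` a nonempty finite set of places, `C < ρ / 2`.
Then `h_K(P) + m_S(D, P) < C log⁺ h_A(P) + d(P)` fails at infinitely many `P` of degree `≤ r`.

Idea: the `M ^ ρ` points `∑ nᵢ Pᵢ`, `0 ≤ nᵢ < M`, live in the compact group `W(k_v)`; two of them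
have a difference `Q` that is so close to `O` that `‖x(Q)‖_v ≥ c M ^ (2ρ)`, while
`h(x(Q)) ≤ A (1 + M²)`.

Everywhere `a` is an absolute value, `psi`, `phi`, `AA`, `GG`, `xv`, `Yv`, `hx`, `pav`, `mu` are in
`EL/Defs.lean`; the addition, subtraction and duplication formulas are proved in `EL/Add.lean`
(`Yv_sq`, `xv_neg`, `Yv_neg`, `eq_or_eq_neg_of_xv`, `add_formula`, `sub_formula`, `two_torsion`,
`dbl_formula`), the polynomial identities in `EL/Bnd.lean`.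
-/

open NumberField Height
open Pool.Agent.Results.MP_e44225_nt.SUnitDisproof (logPlus Place nabs Above)

namespace Pool.Agent.Helper96.EL

universe u

/-- **HGT** (height of a sum).
Proof.  Let `u(P) = ![1, x, x², Y]` for `P ≠ 0` (`x = xv P`, `Y = Yv P`).
(i) `logHeight u(P) ≤ 2 hx P + c₁`: by `logHeight_pow`, `2 logHeight u(P) = logHeight (u(P)²)` and
`u(P)² = ![1, x², x⁴, Y²] = ![1, x², x⁴, psi W x]` (`Yv_sq`) is a linear image (matrix with entries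
independent of `P`) of `![1, x, x², x³, x⁴]`, so by `logHeight_linearMap_apply_le` (or
`logHeight_eval_le'` of `NumberTheory/Height/MvPolynomial`) its height is
`≤ logHeight ![1, x, x², x³, x⁴] + c = 4 logHeight₁ x + c` (e.g. `u(P)²` as homogeneous quartic
polynomials in `![x, 1]`, `logHeight_eval_le'` with `N = 4` does this in one step).
(ii) If `P, Q ≠ 0` and `xv P ≠ xv Q`: by `add_formula`
`xv (P + Q) = (AA - Y₁ Y₂) / (2 (x₁ - x₂)²)`; numerator and denominator are fixed linear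
combinations of the 16 products `u(P)_i u(Q)_j`, so
`hx (P + Q) = logHeight ![num, den] ≤ logHeight (fun ij => u(P) ij.1 * u(Q) ij.2) + c₂
= logHeight u(P) + logHeight u(Q) + c₂ ≤ 2 hx P + 2 hx Q + 2 c₁ + c₂`
(`logHeight₁_div_eq_logHeight`, `logHeight_linearMap_apply_le`, `logHeight_fun_mul_eq`).
(iii) If `P = Q ≠ 0`, `Yv P ≠ 0`: `xv (P + P) = phi / psi` (`dbl_formula`), two quartics in
`![x, 1]`: `hx (P + P) ≤ 4 hx P + c₃`.
(iv) In all other cases `P + Q ∈ {0, P, Q}` and `hx 0 = logHeight₁ 0 = 0`, `hx ≥ 0`.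
(`P, Q ≠ 0`, `xv P = xv Q` gives `P = Q` or `P = -Q` by `eq_or_eq_neg_of_xv`.) -/
def HGT : Prop :=
  ∀ (k : Type u) [Field k] [NumberField k] [DecidableEq k] (W : WeierstrassCurve.Affine k),
    ∃ C : ℝ, 0 ≤ C ∧ ∀ P Q : W.Point, hx (P + Q) ≤ 2 * hx P + 2 * hx Q + C

/-- **GRW** (quadratic growth; pure group theory).
Proof.  Put `C₁ = |C|`.  One point `g`: `F m := f (m • g)`, `F (2n) ≤ 4 F n + C₁`,
`F (2n+1) ≤ 2 F (n+1) + 2 F n + C₁`.  With `D = F 1 + C₁`, `A = 2 F 1 + C₁` strong induction gives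
`F m ≤ A m² - D` for all naturals `m ≥ 1`: `m = 1` is an equality; `m = 2n`:
`4 (A n² - D) + C₁ ≤ A (2n)² - D` as `C₁ ≤ 3 D`; `m = 2n + 1`, `n ≥ 1`:
`2 A (n+1)² + 2 A n² - 4 D + C₁ = A (2n+1)² + A - 4 D + C₁ ≤ A (2n+1)² - D` as `A + C₁ ≤ 3 D`
(indeed `3 D - A - C₁ = F 1 + C₁ ≥ 0`).  Hence `f (m • g) ≤ A m² + f 0` for all integers `m`
(`f (-g) = f g`), `≤ (A + f 0) (1 + M²)` if `|m| ≤ M`.
Sums over a `Finset s` of indices by induction: `f (∑_{insert i s}) ≤ 2 f (nᵢ • Pᵢ) + 2 f (∑_s) + C₁`,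
so `A_{insert} = 2 A_i + 2 A_s + C₁` works. -/
def GRW : Prop :=
  ∀ (G : Type u) [AddCommGroup G] (f : G → ℝ) (C : ℝ), (∀ g, 0 ≤ f g) → (∀ g, f (-g) = f g) →
    (∀ g h, f (g + h) ≤ 2 * f g + 2 * f h + C) →
    ∀ (ρ : ℕ) (P : Fin ρ → G), ∃ A : ℝ, 0 ≤ A ∧ ∀ (n : Fin ρ → ℤ) (M : ℕ), (∀ i, |n i| ≤ M) →
      f (∑ i, n i • P i) ≤ A * (1 + (M : ℝ) ^ 2)

/-- **PIGF** (colouring at a finite place).
Proof.  `w` finite, `𝔭` its prime ideal, `q = N𝔭 ≥ 2`.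
(i) For every `z : k` with `w z ≤ 1` and every `j` there is `b : 𝓞 k` with
`w (z - b) ≤ q^(-j)`: write `z = s / t` with `s, t : 𝓞 k`, `t ∉ 𝔭` (localisation at `𝔭`; or take any
`z = s / t`, `t ∈ 𝔭^e \ 𝔭^(e+1)`, and multiply both by an element of `(t)⁻¹𝔭^e`, or use density of
`k` in the completion and of `𝓞 k` in the integers of the completion), choose `t'` with
`t t' - 1 ∈ 𝔭^j` (`t` is a unit modulo `𝔭^j`), `b = s t'`: `z - b = s (1 - t t') / t` and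
`place_le_of_mem_pow` of `SUnitDisproof`.
(ii) Choose `d : k`, `d ≠ 0`, with `w d * R ≤ 1` (a power of an element of `𝔭`).  For given `N ≥ 1`
let `j` be maximal with `q^j ≤ N`, so `q^(-j) ≤ q / N`.  For `x` with `w x ≤ R` choose
`b x : 𝓞 k` as in (i) for `z = d x`; colour = class of `b x` in `𝓞 k ⧸ 𝔭^j`, which has `q^j ≤ N`
elements (`Ideal.absNorm`, see the proof of `approx` in `SUnitDisproof`); arbitrary colour otherwise.
Equal colours give `w (d x - d x') ≤ max(q^(-j), q^(-j), q^(-j))`, so `w (x - x') ≤ q / (w d * N)`. -/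
def PIGF : Prop :=
  ∀ (k : Type u) [Field k] [NumberField k] (w : FinitePlace k) (R : ℝ),
    ∃ c : ℝ, 0 < c ∧ ∀ N : ℕ, 1 ≤ N → ∃ β : k → Fin N, ∀ x x' : k,
      w x ≤ R → w x' ≤ R → β x = β x' → w (x - x') ≤ c / N

/-- **PIGI** (colouring at an infinite place).
Proof.  We may assume `R > 0`.  `w x = ‖σ x‖` with `σ = w.embedding : k →+* ℂ`.  For a real number
`t ∈ [-R, R]` and `n ≥ 1` put `γ_n(t) = min (n - 1) ⌊n (t + R) / (2R)⌋ : Fin n`; `γ_n t = γ_n t'`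
implies `|t - t'| ≤ 2R / n`.  Real place: `σ x` is real, `β x = γ_N (re (σ x))`, `mult = 1`.
Complex place: `n = Nat.sqrt N ≥ 1`, `n² ≤ N < (n+1)² ≤ 4n²`,
`β x = (γ_n (re (σ x)), γ_n (im (σ x)))` in `Fin n × Fin n`, embedded in `Fin N`; equal colours give
`w (x - x')² ≤ 8 R² / n² ≤ 32 R² / N`. -/
def PIGI : Prop :=
  ∀ (k : Type u) [Field k] [NumberField k] (w : InfinitePlace k) (R : ℝ),
    ∃ c : ℝ, 0 < c ∧ ∀ N : ℕ, 1 ≤ N → ∃ β : k → Fin N, ∀ x x' : k,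
      w x ≤ R → w x' ≤ R → β x = β x' → w (x - x') ^ w.mult ≤ c / N

/-- **BND** (`φ`, `ψ` have no common zero; growth).
Proof.  First part: `disc_identity` and the triangle inequality, `a W.Δ ≤ K (a (psi x) + a (phi x))`
for `a x ≤ R`, where `K ≥ 1` bounds the two cofactors; `a W.Δ > 0` as `W` is elliptic.
Second part: for `a x ≥ 1`, `a (psi x) ≤ (a 4 + a b₂ + a (2 b₄) + a b₆) (a x)³` and
`a (x⁴ - phi x) ≤ (a b₄ + a (2 b₆) + a b₈) (a x)² ≤ (a x)⁴ / 2` for `a x ≥ R₀`. -/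
def BND : Prop :=
  ∀ (F : Type u) [Field F] (a : AbsoluteValue F ℝ) (W : WeierstrassCurve.Affine F) [W.IsElliptic],
    (∀ R : ℝ, ∃ κ : ℝ, 0 < κ ∧ ∀ x : F, a x ≤ R → κ ≤ a (psi W x) + a (phi W x)) ∧
    (∃ R₀ C : ℝ, 1 ≤ R₀ ∧ 0 ≤ C ∧ (∀ x : F, 1 ≤ a x → a (psi W x) ≤ C * a x ^ 3) ∧
      ∀ x : F, R₀ ≤ a x → a x ^ 4 / 2 ≤ a (phi W x))

/-- **DIST** (two points with close coordinates have a difference close to the origin).
Proof.  `ε = a 2 > 0`; we may assume `R ≥ 0` (otherwise vacuous).  `x₁, x₂, Y₁, Y₂` the coordinates of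
`P, Q`, `D = x₁ - x₂`, `x₃ = xv (P - Q)`, `K = a 4 * (2 R) + a b₂ ≥ a (4 (x₁ + x₂) + b₂)`, `κ` from
`BND` for `R`, `L = 2 R³ + a b₄ R + a b₆`, so that `a (GG x₁ x₂ - phi x₁) ≤ L a D`
(`GG x₁ x₂ - GG x₁ x₁ = (x₂ - x₁) (x₁² (x₁ + x₂) - b₄ x₁ - b₆)`, `GG_self`).
Put `t = ε √κ / 4`, `δ₀ = min(t, t / √(2 (K + 1)), κ / (4 (L + 1)))`.
Case A, `x₁ = x₂`: then `P = -Q` (`eq_or_eq_neg_of_xv`, `P ≠ Q`), `P - Q = P + P`, `Y₂ = -Y₁`,
`Y₁ ≠ 0` (else `P + P = 0`, `P = -P = Q`), `a (psi x₁) = a(Y₁)² = a (Y₁ - Y₂)² / ε² ≤ δ²/ε² ≤ κ/2`,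
so `a (phi x₁) ≥ κ/2` and by `dbl_formula` `δ² a x₃ ≥ ε² a(Y₁)² a x₃ = ε² a (phi x₁) ≥ ε² κ / 2`.
Case B, `x₁ ≠ x₂`: by `sub_formula`, `AA_identity`, `Yv_sq`, `GG_identity`:
`4 x₃ D² = (Y₁ + Y₂)² - D² (4 (x₁ + x₂) + b₂)` (*) and
`4 GG x₁ x₂ = x₃ ((Y₁ - Y₂)² - D² (4 (x₁ + x₂) + b₂))` (**).
B1, `a (Y₁ + Y₂) ≥ t`: (*) gives `a 4 * a x₃ * a D² ≥ t² - δ² K ≥ t²/2`, so
`δ² a x₃ ≥ t² / (2 a 4)`.
B2, `a (Y₁ + Y₂) < t`: `ε a Y₁ ≤ a (Y₁ + Y₂) + a (Y₁ - Y₂) ≤ 2 t`, so `a (psi x₁) ≤ κ / 4`,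
`a (phi x₁) ≥ 3κ/4`, `a (GG x₁ x₂) ≥ κ/2`, and (**) gives
`a x₃ * δ² (1 + K) ≥ a 4 * κ/2`.  Take for `c` the minimum of the three constants. -/
def DIST : Prop :=
  ∀ (F : Type u) [Field F] [CharZero F] [DecidableEq F] (a : AbsoluteValue F ℝ)
    (W : WeierstrassCurve.Affine F) [W.IsElliptic] (R : ℝ),
    ∃ c δ₀ : ℝ, 0 < c ∧ 0 < δ₀ ∧ ∀ P Q : W.Point, P ≠ 0 → Q ≠ 0 → P ≠ Q →
      a (xv P) ≤ R → a (xv Q) ≤ R → ∀ δ : ℝ, 0 ≤ δ → δ ≤ δ₀ →
      a (xv P - xv Q) ≤ δ → a (Yv P - Yv Q) ≤ δ → c ≤ δ ^ 2 * a (xv (P - Q))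

/-- **GOODX** (if `2P` is not near the origin then `P` is not near a 2-torsion point).
Proof.  We may assume `R ≥ 0`.  `P + P ≠ 0` gives `P ≠ 0`, `Yv P ≠ 0` (`two_torsion`),
`xv (P + P) * psi = phi` (`dbl_formula`), so `a phi ≤ R a psi`.  With `R₀, C` from `BND`: if
`a x ≥ R₀` then `(a x)⁴ / 2 ≤ R C (a x)³`, so `a x ≤ 2 R C`; hence `a x ≤ R' := max R₀ (2 R C)`.
With `κ` from `BND` for `R'`: `κ ≤ a psi + a phi ≤ (1 + R) a psi = (1 + R) a(Y)²` (`Yv_sq`), and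
`η = √(κ / (1 + R))`. -/
def GOODX : Prop :=
  ∀ (F : Type u) [Field F] [DecidableEq F] (a : AbsoluteValue F ℝ)
    (W : WeierstrassCurve.Affine F) [W.IsElliptic] (R : ℝ),
    ∃ R' η : ℝ, 0 < η ∧ ∀ P : W.Point, P + P ≠ 0 → a (xv (P + P)) ≤ R →
      a (xv P) ≤ R' ∧ η ≤ a (Yv P)

/-- **SHIFT** (translation by `T ≠ 0` moves a neighbourhood of the origin away from the origin).
Proof.  `t = xv T`, `y = Yv T`.  Let `a x > R₁ := max 1 (2 a t)`, `x = xv Q`, so `Q ≠ 0`, `x ≠ t`,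
`a (x - t) ≥ a x / 2`.  `add_formula`: `2 x₃ (x - t)² = AA x t - Y y`;
`a (AA x t) ≤ C₁ (a x)²` (triangle inequality, `a x ≥ 1`), `a(Y)² = a (psi x) ≤ C (a x)³ ≤ C (a x)⁴`
(`BND`, second part), so `a (x₃) ≤ 4 (C₁ + √C a y) / a 2 =: R₂`.  `R := max R₁ (max R₂ (a t))`;
for `Q = 0` use `Q + T = T`. -/
def SHIFT : Prop :=
  ∀ (F : Type u) [Field F] [CharZero F] [DecidableEq F] (a : AbsoluteValue F ℝ)
    (W : WeierstrassCurve.Affine F) [W.IsElliptic] (T : W.Point), T ≠ 0 →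
    ∃ R : ℝ, ∀ Q : W.Point, (Q = 0 ∨ R < a (xv Q)) → Q + T ≠ 0 ∧ a (xv (Q + T)) ≤ R

/-- **CC** (box principle in `W(k_v)`).  To be proved from `PIGF`, `PIGI`, `DIST`, `GOODX`, `SHIFT`.
Proof.  `a = pav v`, `m = mu v`, `nabs v y = a y ^ m`.  `SHIFT` for `T0 + T0` gives `R₁`, `GOODX` for
`R₁` gives `R', η`.  Call `P` good if `P ≠ 0`, `a (xv P) ≤ R'`, `η ≤ a (Yv P)`.  For every `P`,
`P` or `P + T0` is good: if `P + P ≠ 0` and `a (xv (P + P)) ≤ R₁` then `P` is good by `GOODX`;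
otherwise `SHIFT` applied to `P + P` says that `(P + T0) + (P + T0)` is `≠ 0` with `a xv ≤ R₁`, so
`P + T0` is good.  Let `N < #Z`.  For `τ = 0` or `τ = T0` more than `N / 2` of the `P ∈ Z` have
`P + τ` good.  Let `n = N / 4` (natural division), `N ≥ 4`, so `n ≥ 1`, `n ≥ N / 8`, and `PIG` gives
`c₁` and a colouring `β : k → Fin n` for `R'`.  As `2 n < ` number of the good `P + τ`, three of these
points, `G₁, G₂, G₃`, have the same colour `β (xv Gᵢ)`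
(`Finset.exists_lt_card_fiber_of_mul_lt_card_of_maps_to`, `Finset.two_lt_card`).  So
`a (xᵢ - xⱼ)^m ≤ 8 c₁ / N`; let `d = max a (xᵢ - xⱼ)`.  As `Yᵢ² - Yⱼ² = psi xᵢ - psi xⱼ`,
`a (Yᵢ - Yⱼ) a (Yᵢ + Yⱼ) ≤ L d` with `L = a 4 * 3 R'² + a b₂ * 2 R' + a (2 b₄)`
(`psi x - psi x' = (x - x') (4 (x² + x x' + x'²) + b₂ (x + x') + 2 b₄)`).
As `a 2 * η ≤ a (2 Yᵢ) ≤ a (Yᵢ - Yⱼ) + a (Yᵢ + Yⱼ)`, one factor is `≥ e := a 2 * η / 2` and the other
`≤ L d / e`.  If `a (Yᵢ - Yⱼ) ≤ L d / e` for some pair, take it; otherwise `a (Yᵢ + Yⱼ) ≤ L d / e` for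
all pairs and `a (Y₂ - Y₃) = a ((Y₁ + Y₂) - (Y₁ + Y₃)) ≤ 2 L d / e`.  So for some pair `a (Yᵢ - Yⱼ) ≤ δ`
and `a (xᵢ - xⱼ) ≤ δ`, `δ := Λ d`, `Λ := max 1 (2 L / e)`.  `δ ≤ δ₀` for `N ≥ N₀` because
`d^m ≤ 8 c₁ / N ≤ (δ₀ / Λ)^m`.  `DIST` (for `R'`): `c₂ ≤ δ² a (x₃)`, `x₃ = xv (Gᵢ - Gⱼ)`, so
`c₂^m ≤ Λ^(2m) (d^m)² nabs v x₃ ≤ Λ^(2m) (8 c₁ / N)² nabs v x₃`.
And `Gᵢ - Gⱼ = (Gᵢ - τ) - (Gⱼ - τ)` with `Gᵢ - τ, Gⱼ - τ ∈ Z` distinct. -/
def CC : Prop :=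
  ∀ (k : Type u) [Field k] [NumberField k] [DecidableEq k] (W : WeierstrassCurve.Affine k)
    [W.IsElliptic] (v : Place k) (T0 : W.Point), T0 + T0 ≠ 0 →
    ∃ c : ℝ, 0 < c ∧ ∃ N₀ : ℕ, ∀ N : ℕ, N₀ ≤ N → ∀ Z : Finset W.Point, N < Z.card →
      ∃ P ∈ Z, ∃ Q ∈ Z, P ≠ Q ∧ c * (N : ℝ) ^ 2 ≤ nabs v (xv (P - Q))

/-- **MAIN0** (rational points).  To be proved from `CC`, `HGT`, `GRW`.
Proof.  `T0 = P 0`, `T0 + T0 = 2 • P 0 ≠ 0` by independence.  `CC` gives `c, N₀`; `HGT` and `GRW`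
(with `f = hx`, `hx (-P) = hx P` by `xv_neg`) give `A`.  For a natural number `M ≥ 2` let `Z` be the
image of `n ↦ ∑ i, (n i : ℤ) • P i` on `Fin ρ → Fin M`; it is injective by independence, so
`#Z = M ^ ρ`.  Take `N = M ^ ρ - 1 ≥ M ^ ρ / 2`, large if `M` is.  `CC` gives `Q = ∑ (nᵢ - mᵢ) • P i`,
`Q ≠ 0`, `|nᵢ - mᵢ| ≤ M`, with `nabs v (xv Q) ≥ c N² ≥ (c / 4) M ^ (2ρ)` and `hx Q ≤ A (1 + M²)`.
So `log (1 + hx Q) ≤ log ((1 + A) * 2 M²) = log (2 (1 + A)) + 2 log M`, and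
`1/2 log (nabs v (xv Q)) ≥ ρ log M + 1/2 log (c / 4) ≥ ρ/2 log (1 + hx Q) - c₀` with
`c₀ = ρ/2 log (2 (1 + A)) - 1/2 log (c / 4)`.  Finally `(c / 4) M ^ (2ρ) ≥ R` for `M` large. -/
def MAIN0 : Prop :=
  ∀ (k : Type u) [Field k] [NumberField k] [DecidableEq k] (W : WeierstrassCurve.Affine k)
    [W.IsElliptic] (v : Place k) (ρ : ℕ) (P : Fin ρ → W.Point), 0 < ρ → LinearIndependent ℤ P →
    ∃ c₀ : ℝ, ∀ R : ℝ, ∃ Q : W.Point, Q ≠ 0 ∧ R ≤ nabs v (xv Q) ∧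
      (ρ : ℝ) / 2 * Real.log (1 + hx Q) - c₀ ≤ 1 / 2 * Real.log (nabs v (xv Q))

/-- **TR** (rational points as algebraic points). -/
def TR : Prop :=
  ∀ (k : Type u) [Field k] [NumberField k] (W : WeierstrassCurve.Affine k) (Q : W.Point), Q ≠ 0 →
    ∃ P : Pt W, P.x = algebraMap k (AlgebraicClosure k) (xv Q) ∧ deg P = 1 ∧ ht P = hx Q ∧
      logDiscr P = Real.log |(NumberField.discr k : ℝ)| ∧
      ∀ S : Finset (Place k), prox S P = ∑ v ∈ S, logPlus (nabs v (xv Q)) / 2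

/-- **NT** (points whose `x` lies in a fixed number field and has large height are not torsion).
Proof.  Work with `W' = W.baseChange K` (elliptic).  Mathlib's
`WeierstrassCurve.abs_logHeight_addSubMap_sub_two_mul_logHeight_le` for `W'` gives `C₀`; apply it to
`![x², 2x, 1]`, `x : K`: `addSubMap` takes the value `![phi W' x, psi W' x, 0]`, so
`logHeight ![phi W' x, psi W' x] ≥ 2 logHeight ![x², 2x, 1] - C₀ ≥ 2 logHeight ![x², 1] - C₀
= 4 logHeight₁ x - C₀` (`logHeight_cons_cons_cons_zero` or similar, `logHeight_comp_le`,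
`logHeight₁_eq_logHeight`, `logHeight₁_pow`).  `B := |C₀|`.  If `h(x) > B`: `psi W' x ≠ 0` (otherwise
the left side is `0` and the right side positive) and `x' := phi W' x / psi W' x` has
`h(x') ≥ 4 h(x) - C₀ > h(x)` (`logHeight₁_div_eq_logHeight`).
If `P ≠ 0` is a point over `L ⊇ K` with `xv P = x ∈ K`, `h(x) > B`, then `Yv P ≠ 0` (`Yv_sq`;
`psi (W.baseChange L) (algebraMap K L x) = algebraMap K L (psi W' x)` etc.), and `P + P ≠ 0` has
`xv (P + P) = x'` (`dbl_formula`).  So `2 ^ i • P` has `xv` equal to `x_i ∈ K` with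
`h(x_0) < h(x_1) < …`, and the points `2 ^ i • P` are distinct.  If `n • P = 0`, `n ≠ 0`, then `P` has
finite order and only finitely many multiples, a contradiction. -/
def NT : Prop :=
  ∀ (k K : Type u) [Field k] [Field K] [NumberField K] [Algebra k K]
    (W : WeierstrassCurve.Affine k) [W.IsElliptic], ∃ B : ℝ,
    ∀ (L : Type u) [Field L] [Algebra K L] [Algebra k L] [IsScalarTower k K L] [DecidableEq L]
      (x : K) (P : (W.baseChange L).Point), B < logHeight₁ x → P ≠ 0 → xv P = algebraMap K L x →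
      ∀ n : ℤ, n ≠ 0 → n • P ≠ 0

/-- **NS** (`ψ(x)` is not a square for some `x` of large height).
Proof.  Take a finite place `w` of `k` (`infinite_finitePlace` of `SUnitDisproof`), `q > 1` the norm of
its prime, `π : k` with `w π = 1 / q` (`HeightOneSpectrum.valuation_exists_uniformizer`).
`x = (π ^ (2j+1))⁻¹`, `X = w x = q ^ (2j+1)`.  `w` is nonarchimedean, so for `X ≥ 1`
`w (b₂ x² + 2 b₄ x + b₆) ≤ M X²`, `M = max (w b₂) (w (2 b₄)) (w b₆)`, while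
`w (4 x³) = (w 2)² X³ > M X²` for `j` large; hence `w (psi x) = (w 2)² X³`.  If `psi x = z²` then
`y = z / (2 x)` satisfies `(w y)² = X = q ^ (2j+1)`, but `w y = q ^ n` for some integer `n`:
contradiction with parity.  And `logHeight₁ x ≥ log (w x) = (2j+1) log q`, arbitrarily large
(`NumberField.logHeight₁_eq`: all terms are nonnegative). -/
def NS : Prop :=
  ∀ (k : Type u) [Field k] [NumberField k] (W : WeierstrassCurve.Affine k) (B : ℝ),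
    ∃ x : k, B < logHeight₁ x ∧ ¬ IsSquare (psi W x)

/-- **STEP** (one more independent point after a quadratic extension).  To be proved from `NT`, `NS`.
Proof.  `B` from `NT` for `(k, K₀, W)`, `x : K₀` from `NS` for `W.baseChange K₀` and `B`,
`d = psi (W.baseChange K₀) x`, not a square, so `d ≠ 0` and `f = X² - C d` is irreducible over `K₀`;
`L = AdjoinRoot f` with the root `s` (`s² = d`, `s ≠ 0`), a number field
(`NumberField.of_module_finite K₀ L`), with the `k`-algebra structure of `AdjoinRoot`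
(`IsScalarTower k K₀ L`).  `y = (s - a₁ x - a₃) / 2`, `Q = (x, y)`: the equation is equivalent to
`(2 y + a₁ x + a₃)² = psi x`, and `Q` is nonsingular because `2 y + a₁ x + a₃ = s ≠ 0`.
`σ : L →ₐ[K₀] L` with `σ s = -s`.  `Point.map σ Q = -Q` (`negY x y = (-s - a₁ x - a₃)/2`), and
`Point.map σ` fixes the images `P'ᵢ` of the `P i` under `Point.baseChange K₀ L`
(`Point.map_baseChange`).  If `∑ nᵢ P'ᵢ + m Q = 0`, apply `Point.map σ` and subtract: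
`(2 m) • Q = 0`, so `m = 0` by `NT`; then `∑ nᵢ P'ᵢ = 0` and `nᵢ = 0` by injectivity
(`Point.map_injective`) and independence.  `P' = Fin.snoc P'ᵢ Q` or `Fin.cons Q P'ᵢ`;
`Fintype.linearIndependent_iff`, `Fin.sum_univ_succ` or `Fin.sum_univ_castSucc`. -/
def STEP : Prop :=
  ∀ (k K₀ : Type u) [Field k] [Field K₀] [NumberField K₀] [Algebra k K₀] [DecidableEq K₀]
    (W : WeierstrassCurve.Affine k) [W.IsElliptic] (n : ℕ)
    (P : Fin n → (W.baseChange K₀).Point), LinearIndependent ℤ P →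
    ∃ (K : Type u) (_ : Field K) (_ : NumberField K) (_ : Algebra k K) (_ : DecidableEq K)
      (P' : Fin (n + 1) → (W.baseChange K).Point), LinearIndependent ℤ P'

/-- The main theorem, first part. -/
def Main : Prop :=
  ∀ (k : Type u) [Field k] [NumberField k] [DecidableEq k] (W : WeierstrassCurve.Affine k)
    [W.IsElliptic] (ρ : ℕ) (P : Fin ρ → W.Point), 0 < ρ → LinearIndependent ℤ P →
    ∀ (T : Finset (Pt W)) (r : ℕ), 1 ≤ r → ∀ S : Finset (Place k), S.Nonempty →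
      ∀ C : ℝ, C < (ρ : ℝ) / 2 → Fails k W T r S C

/-- The main theorem, second part. -/
def Main2 : Prop :=
  ∀ (k : Type u) [Field k] [NumberField k] (W : WeierstrassCurve.Affine k) [W.IsElliptic] (C : ℝ),
    ∃ (K : Type u) (_ : Field K) (_ : NumberField K) (_ : Algebra k K),
      ∀ (T : Finset (Pt (W.baseChange K))) (r : ℕ), 1 ≤ r →
      ∀ S : Finset (Place K), S.Nonempty → Fails K (W.baseChange K) T r S C

end Pool.Agent.Helper96.EL
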