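import Pool.Agent.Helper96.EL.Goals

/-!
# Rational points as algebraic points (`TR`)
-/

open NumberField Height
open Pool.Agent.Results.MP_e44225_nt.SUnitDisproof (logPlus Place nabs Above exists_placeEquiv
  logHeight_algebraMap)

namespace Pool.Agent.Helper96.EL

universe u

section tr

variable {k : Type u} [Field k] [NumberField k]

section iso

variable {L : Type u} [Field L] [NumberField L] [Algebra k L]

lemma finsum_half (hb : Function.Bijective (algebraMap k L)) (S : Finset (Place k)) (u : k) :
    ∑ᶠ w ∈ {w : Place L | ∃ v ∈ S, Above v w}, logPlus (nabs w (algebraMap k L u)) / 2 =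
      ∑ v ∈ S, logPlus (nabs v u) / 2 := by
  classical
  obtain ⟨φ, ψ, hφa, hψa, hmult, hφ, hψ⟩ := exists_placeEquiv hb
  let Φ : Place k ≃ Place L := Equiv.sumCongr φ ψ
  have hset : {w : Place L | ∃ v ∈ S, Above v w} = Φ '' (S : Set (Place k)) := by
    ext w
    constructor
    · rintro ⟨v, hv, (⟨v', w', rfl, rfl, h⟩ | ⟨v', w', rfl, rfl, h⟩)⟩
      · refine ⟨Sum.inl v', hv, ?_⟩
        rw [(hφa v' w').mp h]; rfl
      · refine ⟨Sum.inr v', hv, ?_⟩
        rw [(hψa v' w').mp h]; rfl
    · rintro ⟨v, hv, rfl⟩
      refine ⟨v, hv, ?_⟩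
      rcases v with v | v
      · exact Or.inl ⟨v, φ v, rfl, rfl, (hφa v _).mpr rfl⟩
      · exact Or.inr ⟨v, ψ v, rfl, rfl, (hψa v _).mpr rfl⟩
  have hnabs : ∀ (v : Place k) (x : k), nabs (Φ v) (algebraMap k L x) = nabs v x := by
    intro v x
    rcases v with v | v
    · change (φ v) (algebraMap k L x) ^ (φ v).mult = v x ^ v.mult
      rw [hφ, hmult]
    · exact hψ v x
  rw [hset, finsum_mem_image (Φ.injective.injOn), finsum_mem_coe_finset]
  exact Finset.sum_congr rfl fun v _ => by rw [hnabs]

end iso

variable {W : WeierstrassCurve.Affine k}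

lemma resField_bij (P : Pt W) (x y : k) (hx : P.x = algebraMap k (AlgebraicClosure k) x)
    (hy : P.y = algebraMap k (AlgebraicClosure k) y) :
    Function.Bijective (algebraMap k (resField P)) := by
  refine ⟨(algebraMap k _).injective, ?_⟩
  rintro ⟨z, hz⟩
  have h1 : resField P = ⊥ := by
    rw [eq_bot_iff, resField, IntermediateField.adjoin_le_iff]
    intro t ht
    rcases ht with rfl | ht
    · rw [hx]; exact IntermediateField.algebraMap_mem _ x
    · rw [Set.mem_singleton_iff] at ht
      rw [ht, hy]; exact IntermediateField.algebraMap_mem _ y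
  rw [h1, IntermediateField.mem_bot] at hz
  obtain ⟨w, hw⟩ := hz
  exact ⟨w, Subtype.ext hw⟩

lemma deg_eq_one (P : Pt W) (hb : Function.Bijective (algebraMap k (resField P))) : deg P = 1 := by
  unfold deg
  have e : k ≃ₗ[k] resField P := LinearEquiv.ofBijective (Algebra.linearMap k (resField P)) hb
  rw [← e.finrank_eq, Module.finrank_self]

/-- **TR**. -/
theorem tr : TR.{u} := by
  intro k _ _ W Q hQ
  obtain ⟨x, y, h, rfl⟩ := exists_some hQ
  have h1 := (WeierstrassCurve.Affine.equation_iff x y).mp h.1
  set ι := algebraMap k (AlgebraicClosure k) with hι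
  let P : Pt W := ⟨ι x, ι y, by
    have h2 := congrArg ι h1
    simpa only [map_add, map_mul, map_pow] using h2⟩
  have hb : Function.Bijective (algebraMap k (resField P)) := resField_bij P x y rfl rfl
  have hd : deg P = 1 := deg_eq_one P hb
  have hxr : xRes P = algebraMap k (resField P) x := rfl
  refine ⟨P, rfl, hd, ?_, ?_, ?_⟩
  · unfold ht
    rw [hd, hxr, logHeight_algebraMap hb]
    simp [hx]
  · unfold logDiscr
    rw [hd]
    have := NumberField.discr_eq_discr_of_ringEquiv (K := k)
      (RingEquiv.ofBijective (algebraMap k (resField P)) hb)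
    rw [← this]
    simp
  · intro S
    unfold prox
    rw [hd, hxr, finsum_half hb, Nat.cast_one, div_one]
    rfl

end tr

end Pool.Agent.Helper96.EL
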